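import Pool.Agent.LeoG.AlgStmts

/-!
# Squad LEOG, module API: clearing denominators, and the ideal
-/

set_option autoImplicit false

open NumberField IsDedekindDomain WithZero Module
open Pool.Agent.Helper85_Leo Pool.Agent.Leo3 Pool.Agent.LeoK

namespace Pool.Agent.LeoG.H5

/-- An element whose valuations are cubes generates the cube of an ideal. -/
theorem ideal_cube {K : Type} [Field K] [NumberField K] (y : 𝓞 K) (hy0 : y ≠ 0)
    (h : ∀ q : HeightOneSpectrum (𝓞 K), ∃ x : ℤᵐ⁰, q.valuation K (y : K) = x ^ 3) :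
    ∃ I : Ideal (𝓞 K), Ideal.span {y} = I ^ 3 := by
  classical
  have hI0 : Ideal.span {y} ≠ ⊥ := by simpa using hy0
  have hcount : ∀ P ∈ UniqueFactorizationMonoid.normalizedFactors (Ideal.span {y}),
      3 ∣ Multiset.count P (UniqueFactorizationMonoid.normalizedFactors (Ideal.span {y})) := by
    intro P hP
    have hPp : Prime P := UniqueFactorizationMonoid.prime_of_normalized_factor P hP
    let q : HeightOneSpectrum (𝓞 K) := ⟨P, Ideal.isPrime_of_prime hPp, hPp.ne_zero⟩
    obtain ⟨x, hx⟩ := h q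
    have h1 : q.valuation K (algebraMap (𝓞 K) K y) = x ^ 3 := hx
    rw [HeightOneSpectrum.valuation_of_algebraMap, q.intValuation_eq_exp_neg_multiplicity hy0,
      UniqueFactorizationMonoid.multiplicity_eq_count_normalizedFactors hPp.irreducible hI0,
      normalize_eq] at h1
    have hx0 : x ≠ 0 := by
      rintro rfl
      rw [zero_pow (by norm_num)] at h1
      exact exp_ne_zero h1
    rw [← exp_log hx0, ← exp_nsmul, exp_inj] at h1
    have h2 : (3 : ℤ) ∣ (Multiset.count P
        (UniqueFactorizationMonoid.normalizedFactors (Ideal.span {y})) : ℤ) := by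
      refine ⟨-log x, ?_⟩
      simp only [nsmul_eq_mul] at h1
      push_cast at h1
      linarith
    exact_mod_cast h2
  obtain ⟨s, hs⟩ := Multiset.exists_smul_of_dvd_count _ hcount
  refine ⟨s.prod, ?_⟩
  rw [← Multiset.prod_nsmul, ← hs]
  exact (Ideal.prod_normalizedFactors_eq_self hI0).symm

/-- A denominator. -/
theorem denom {K : Type} [Field K] [NumberField K] (z : K) :
    ∃ n : ℕ, n ≠ 0 ∧ ∃ a : 𝓞 K, (a : K) = z * n := by
  obtain ⟨a, b, hb, hab⟩ := IsFractionRing.div_surjective (A := 𝓞 K) z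
  have hb0 : b ≠ 0 := nonZeroDivisors.ne_zero hb
  have hbK : algebraMap (𝓞 K) K b ≠ 0 := by simpa using hb0
  have hmem := Ideal.absNorm_mem (Ideal.span {b})
  obtain ⟨c, hc⟩ := Ideal.mem_span_singleton'.1 hmem
  refine ⟨Ideal.absNorm (Ideal.span {b}), ?_, a * c, ?_⟩
  · rw [Ne, Ideal.absNorm_eq_zero_iff]
    simpa using hb0
  · have h1 : (algebraMap (𝓞 K) K c) * algebraMap (𝓞 K) K b =
        ((Ideal.absNorm (Ideal.span {b}) : ℕ) : K) := by
      rw [← map_mul, hc, map_natCast]
    have h2 : algebraMap (𝓞 K) K (a * c) = z * ((Ideal.absNorm (Ideal.span {b}) : ℕ) : K) := by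
      rw [← h1, ← hab, map_mul]
      field_simp
    exact h2

/-- API. -/
theorem api : ApiStmt := by
  classical
  intro K _ _ z hz hval h9
  obtain ⟨n0, hn0, a, ha⟩ := denom z
  obtain ⟨e, n1, hn1, hn⟩ := Nat.exists_eq_pow_mul_and_not_dvd hn0 3 (by norm_num)
  have hn10 : n1 ≠ 0 := by
    rintro rfl
    exact hn1 (dvd_zero 3)
  set n : ℕ := n1 ^ 6 with hndef
  have hnne : n ≠ 0 := pow_ne_zero 6 hn10
  have hnat : ∀ (P : HeightOneSpectrum (𝓞 K)) (j : ℕ), P.valuation K (j : K) ≤ 1 := by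
    intro P j
    have : P.valuation K (algebraMap (𝓞 K) K (j : 𝓞 K)) ≤ 1 := P.valuation_le_one (K := K) _
    rwa [map_natCast] at this
  have h3K : ∀ P : HeightOneSpectrum (𝓞 K), (3 : 𝓞 K) ∉ P.asIdeal → P.valuation K (3 : K) = 1 := by
    intro P hP
    have : P.valuation K (algebraMap (𝓞 K) K (3 : 𝓞 K)) = 1 :=
      (P.valuation_eq_one_iff_notMem (K := K) (r := (3 : 𝓞 K))).2 hP
    rwa [map_ofNat] at this
  have h3L : ∀ P : HeightOneSpectrum (𝓞 K), (3 : 𝓞 K) ∈ P.asIdeal → P.valuation K (3 : K) < 1 := by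
    intro P hP
    have : P.valuation K (algebraMap (𝓞 K) K (3 : 𝓞 K)) < 1 :=
      (P.valuation_lt_one_iff_mem (K := K) (3 : 𝓞 K)).2 hP
    rwa [map_ofNat] at this
  -- integrality
  have hz1 : ∀ P : HeightOneSpectrum (𝓞 K), (3 : 𝓞 K) ∈ P.asIdeal → P.valuation K z ≤ 1 := by
    intro P hP
    have h1 := h9 P hP
    have h2 : P.valuation K ((3 : K) ^ 2) ≤ 1 := by
      rw [map_pow]
      exact pow_le_one' (h3L P hP).le 2
    have h3 : z = (z - 1) + 1 := by ring
    rw [h3]
    refine (Valuation.map_add _ _ _).trans (max_le (h1.trans h2) ?_)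
    rw [map_one]
  have hzn : ∀ P : HeightOneSpectrum (𝓞 K), P.valuation K (z * (n1 : K)) ≤ 1 := by
    intro P
    by_cases hP : (3 : 𝓞 K) ∈ P.asIdeal
    · rw [map_mul]
      exact mul_le_one' (hz1 P hP) (hnat P n1)
    · have h1 : P.valuation K (z * (n0 : K)) ≤ 1 := by
        rw [← ha]
        exact P.valuation_le_one a
      have h2 : z * (n0 : K) = (3 : K) ^ e * (z * n1) := by
        rw [hn]
        push_cast
        ring
      rwa [h2, map_mul, map_pow, h3K P hP, one_pow, one_mul] at h1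
  have hzn3 : ∀ P : HeightOneSpectrum (𝓞 K), P.valuation K (z * (n : K) ^ 3) ≤ 1 := by
    intro P
    have h1 : z * (n : K) ^ 3 = (z * n1) * ((n1 ^ 17 : ℕ) : K) := by
      rw [hndef]
      push_cast
      ring
    rw [h1, map_mul]
    exact mul_le_one' (hzn P) (hnat P _)
  obtain ⟨y, hy⟩ := HeightOneSpectrum.mem_integers_of_valuation_le_one K _ hzn3
  have hyne : y ≠ 0 := by
    rintro rfl
    rw [map_zero] at hy
    have h1 : (n : K) ≠ 0 := Nat.cast_ne_zero.2 hnne
    exact mul_ne_zero hz (pow_ne_zero 3 h1) hy.symm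
  -- n ^ 3 is 1 modulo 9
  have hmod : (9 : ℤ) ∣ (n : ℤ) ^ 3 - 1 := by
    have h1 : Nat.Coprime n1 9 := by
      have : Nat.Coprime n1 3 := ((Nat.Prime.coprime_iff_not_dvd Nat.prime_three).2 hn1).symm
      exact Nat.Coprime.pow_right 2 this
    have h2 := Nat.ModEq.pow_totient h1
    have h3 : Nat.totient 9 = 6 := by decide
    rw [h3] at h2
    have h4 : n ^ 3 ≡ 1 [MOD 9] := by
      have := h2.pow 3
      rwa [one_pow] at this
    have h5 := (Nat.modEq_iff_dvd.1 h4.symm)
    push_cast at h5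
    exact h5
  obtain ⟨d, hd⟩ := hmod
  have hdK : (n : K) ^ 3 - 1 = 9 * (d : K) := by
    have := congrArg (Int.cast : ℤ → K) hd
    push_cast at this
    exact this
  have hdv : ∀ P : HeightOneSpectrum (𝓞 K), P.valuation K (d : K) ≤ 1 := by
    intro P
    have : P.valuation K (algebraMap (𝓞 K) K (d : 𝓞 K)) ≤ 1 := P.valuation_le_one (K := K) _
    rwa [map_intCast] at this
  have h9K : (9 : K) = 3 ^ 2 := by norm_num
  have hq : ∀ P : HeightOneSpectrum (𝓞 K), P.valuation K ((z * (n : K) ^ 3 - 1) / 9) ≤ 1 := by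
    intro P
    have h90 : P.valuation K (9 : K) ≠ 0 := by
      rw [Valuation.ne_zero_iff]
      norm_num
    rw [map_div₀, div_le_one₀ (zero_lt_iff.2 h90)]
    by_cases hP : (3 : 𝓞 K) ∈ P.asIdeal
    · have h1 : z * (n : K) ^ 3 - 1 = (z - 1) * ((n ^ 3 : ℕ) : K) + 9 * (d : K) := by
        rw [← hdK]
        push_cast
        ring
      rw [h1]
      refine (Valuation.map_add _ _ _).trans (max_le ?_ ?_)
      · rw [map_mul, h9K]
        exact (mul_le_of_le_one_right' (hnat P _)).trans (h9 P hP)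
      · rw [map_mul]
        exact mul_le_of_le_one_right' (hdv P)
    · rw [h9K, map_pow, h3K P hP, one_pow]
      refine (Valuation.map_sub _ _ _).trans (max_le (hzn3 P) ?_)
      rw [map_one]
  obtain ⟨t, ht⟩ := HeightOneSpectrum.mem_integers_of_valuation_le_one K _ hq
  have hyt : y - 1 = 9 * t := by
    have hinj : Function.Injective (algebraMap (𝓞 K) K) := IsFractionRing.injective (𝓞 K) K
    apply hinj
    rw [map_sub, map_one, map_mul, map_ofNat, hy, ht]
    field_simp
  -- the ideal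
  have hcube : ∀ q : HeightOneSpectrum (𝓞 K), ∃ x : ℤᵐ⁰, q.valuation K (y : K) = x ^ 3 := by
    intro P
    by_cases hP : (3 : 𝓞 K) ∈ P.asIdeal
    · refine ⟨1, ?_⟩
      rw [one_pow]
      refine P.valuation_eq_one_iff_notMem.2 fun hyP => ?_
      have h1 : (1 : 𝓞 K) = y - 3 * (3 * t) := by
        have : y = 1 + 9 * t := by rw [← hyt]; ring
        rw [this]
        ring
      refine P.isPrime.ne_top ((Ideal.eq_top_iff_one _).2 ?_)
      rw [h1]
      exact P.asIdeal.sub_mem hyP (P.asIdeal.mul_mem_right _ hP)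
    · obtain ⟨x, hx⟩ := hval P hP
      refine ⟨x * P.valuation K (n : K), ?_⟩
      have : (y : K) = z * (n : K) ^ 3 := hy
      rw [this, map_mul, hx, map_pow, mul_pow]
  obtain ⟨I, hI⟩ := ideal_cube y hyne hcube
  exact ⟨n, y, I, hnne, hy, hyne, ⟨t, hyt⟩, hI⟩

end Pool.Agent.LeoG.H5
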